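import Mathlib
import Pool.Agent.H.MP_4ba7b3_gt.Defs
import Pool.Agent.H.MP_2b4c46_gt.A

open Pool.Agent.H.MP_4ba7b3_gt

namespace Pool.Agent.Results.MP_2b4c46_gt.NotMackey

/-- locally quasi-convex -/
def LQC (τ : TopologicalSpace ℤ) : Prop :=
  ∀ U ∈ @nhds ℤ τ 0, ∃ A ∈ @nhds ℤ τ 0, A ⊆ U ∧ ∀ x ∉ A, ∃ χ : ℤ →+ UnitAddCircle,
    @Continuous _ _ τ _ χ ∧ (∀ a ∈ A, ‖χ a‖ ≤ 1 / 4) ∧ ¬ ‖χ x‖ ≤ 1 / 4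

theorem result : ∃ b : ℕ → ℕ, IsD b ∧
    (∀ χ : ℤ →+ UnitAddCircle, @Continuous _ _ (supTop b) _ χ ↔ InH b χ) ∧
    ∃ σ : TopologicalSpace ℤ, @IsTopologicalAddGroup ℤ σ _ ∧ LQC σ ∧
      (∀ χ : ℤ →+ UnitAddCircle, @Continuous _ _ σ _ χ ↔ InH b χ) ∧ ¬ supTop b ≤ σ := by
  obtain ⟨h1, h, h2, h3⟩ := Pool.Agent.H.MP_2b4c46_gt.main
  exact ⟨_, Pool.Agent.H.MP_2b4c46_gt.isD, h1, uc h, uc_grp h, uc_lqc h, h2, h3⟩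

end Pool.Agent.Results.MP_2b4c46_gt.NotMackey
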